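import Pool.Agent.helper49.M4F.FAIL
import Pool.Agent.helper26.M4.CovB

/-! # M4 block II: FAIL from LC1b, R1, R2 -/

set_option autoImplicit false

namespace Pool.Agent.M4F

open Pool.Agent.M4

theorem COVA_of (R1 : Cov.R1_stmt) (R2 : Cov.R2_stmt) : COVA_stmt :=
  fun _ _ _ _ _ hl h0 h1 h5 hs hr hp0 hp1 C hA hA0 =>
    Cov.cov_of R1 R2 hl h0 h1 h5 hs hr hp0 hp1 C hA hA0

theorem FAIL_of2 (h1 : LC1b_stmt) (R1 : Cov.R1_stmt) (R2 : Cov.R2_stmt) : FAIL_stmt :=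
  FAIL_of h1 (COVA_of R1 R2)

end Pool.Agent.M4F
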