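import Pool.Agent.helper49.M4.Spec2
import Pool.Agent.helper49.M4F.ASR

/-! # M4 block II: real assembly -/

set_option autoImplicit false

namespace Pool.Agent.M4F

open Real

theorem ASR2 : ASR2_stmt := by
  intro hFRM hSTR hBRA hWST hLC1 hLC1b hLC2 hLC3 hCOV hNEA lam th a b k h
  have hst : 0 < sin th := sin_pos_of_pos_of_lt_pi h.th0 (by linarith [h.th1, pi_pos])
  have hsl : 0 < sinh lam := sinh_pos_iff.2 h.lam0
  have hs : 0 < st lam th := by unfold st; positivity
  have hbk := h.bj k le_rfl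
  have hbk0 : 0 < b + k * th := by
    have : (0 : ℝ) ≤ k * th := mul_nonneg (Nat.cast_nonneg k) h.th0.le
    linarith [h.b0]
  have hbig1 := h.big (k + 1) (by omega)
  have hbig2 := h.big (k + 2) (by omega)
  push_cast at hbig1 hbig2
  have hne : a + k * lam + lam ≠ 0 ∨ b + k * th + th ≠ π := by
    by_contra hcon
    rw [not_or, not_not, not_not] at hcon
    have e1 : a + ((k : ℝ) + 1) * lam = 0 := by rw [← hcon.1]; ring
    have e2 : b + ((k : ℝ) + 1) * th = π := by rw [← hcon.2]; ring
    rw [e1, e2, sinh_zero, sin_pi] at hbig1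
    norm_num at hbig1
    linarith
  have hfail : reF lam th (a + k * lam + lam) (b + k * th + th) ≤ 0 := by
    have := h.fail
    rwa [show a + ((k : ℝ) + 1) * lam = a + k * lam + lam by ring,
      show b + ((k : ℝ) + 1) * th = b + k * th + th by ring] at this
  obtain ⟨f1, f2, f3⟩ := hFRM lam th (a + k * lam) (b + k * th) h.lam0 h.th0 h.th1 hbk0 hbk
    (h.re k le_rfl) hfail hne
  obtain ⟨a', ha'⟩ : ∃ a', a' = -(a + k * lam + lam) := ⟨_, rfl⟩
  obtain ⟨c, hc⟩ : ∃ c, c = π - (b + k * th + th) := ⟨_, rfl⟩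
  have e1 : a + k * lam + lam = -a' := by rw [ha']; ring
  have e2 : b + k * th + th = π - c := by rw [hc]; ring
  have e1' : a + ((k : ℝ) + 1) * lam = -a' := by rw [← e1]; ring
  have e2' : b + ((k : ℝ) + 1) * th = π - c := by rw [← e2]; ring
  have e3 : a + ((k : ℝ) + 2) * lam = lam - a' := by
    have : a + ((k : ℝ) + 2) * lam = (a + ((k : ℝ) + 1) * lam) + lam := by ring
    rw [this, e1']; ring
  have e4 : b + ((k : ℝ) + 2) * th = π - (c - th) := by
    have : b + ((k : ℝ) + 2) * th = (b + ((k : ℝ) + 1) * th) + th := by ring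
    rw [this, e2']; ring
  have e5 : a + k * lam = -(lam + a') := by linarith
  have e6 : b + k * th = π - (th + c) := by linarith
  have hLF : LF lam th a' c := by
    refine ⟨h.lam0, h.th0, h.th1, by linarith, by linarith, by linarith, ?_, ?_⟩
    · have h1 := h.lens k le_rfl
      unfold Lens at h1
      rw [e5, e6, sinh_neg, abs_neg, sin_pi_sub, abs_of_pos (sinh_pos_iff.2 (by
        linarith [h.lam0]))] at h1
      exact h1
    · have h1 := hfail
      unfold reF at h1
      rw [e1, e2, cosh_neg, sinh_neg, sin_pi_sub, cos_pi_sub] at h1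
      nlinarith
  rw [e1', e2', sinh_neg, sin_pi_sub] at hbig1
  rw [e3, e4, sin_pi_sub] at hbig2
  have hS := hSTR lam th a' c hLF
  have hlt2 : sinh lam ^ 2 < sin th ^ 2 := by
    have g1 := one_le_cosh a'
    have g2 := cos_le_one c
    have g3 : sinh lam ^ 2 ≤ sinh lam ^ 2 * cosh a' := le_mul_of_one_le_right (sq_nonneg _) g1
    have g4 : sin th ^ 2 * cos c ≤ sin th ^ 2 := mul_le_of_le_one_right (sq_nonneg _) g2
    linarith
  have hlt : sinh lam < sin th := lt_of_pow_lt_pow_left₀ 2 hst.le hlt2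
  have hbk2 : sin (c - th) ^ 2 = sin (th - c) ^ 2 := by
    rw [show c - th = -(th - c) by ring, sin_neg]; ring
  rw [hbk2] at hbig2
  rcases le_or_gt a' (lam / 2) with h6 | h6
  · have h7 : 4 * rh lam th * (sinh a' ^ 2 + sin c ^ 2) < 1.69 * st lam th := by
      rcases le_or_gt (5 * cos th ^ 2) 1 with h5 | h5
      · exact hLC1 lam th a' c hLF h5 h6
      · exact hLC1b lam th a' c hLF h5.le h6
    nlinarith
  rcases lt_or_ge a' (c * lam / th) with h8 | h8
  · have := hLC3 lam th a' c hLF h6 h8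
    linarith
  rcases le_or_gt (5 * cos th ^ 2) 1 with h5 | h5
  · have hpi4 : π / 4 ≤ th := by
      by_contra hcon
      rw [not_le] at hcon
      have g1 : cos (π / 4) ≤ cos th :=
        cos_le_cos_of_nonneg_of_le_pi h.th0.le (by linarith [pi_pos]) hcon.le
      rw [cos_pi_div_four] at g1
      have g2 : (0 : ℝ) ≤ √2 / 2 := by positivity
      have g3 : (√2 / 2) ^ 2 ≤ cos th ^ 2 := pow_le_pow_left₀ g2 g1 2
      rw [div_pow, sq_sqrt (by norm_num : (0 : ℝ) ≤ 2)] at g3
      linarith
    have hZ := hWST lam th a b 1.69 (k + 1) h.lam0 hpi4 h.th1 (by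
      push_cast
      rw [e1']
      linarith) (fun j hj => h.big j (by omega))
    rcases hLC2 lam th a' c hLF h5 h6 hZ with h7 | h7
    · nlinarith
    · linarith
  · have hklam : 0 ≤ (k : ℝ) * lam := mul_nonneg (Nat.cast_nonneg k) h.lam0.le
    have hkth : 0 ≤ (k : ℝ) * th := mul_nonneg (Nat.cast_nonneg k) h.th0.le
    have ha0 : a < 0 := by linarith [h.lam0]
    have hbt : b + th < π := by linarith
    obtain ⟨p1, p2⟩ := hBRA lam th a b h.lam0 h.th0 h.th1 hlt h.b0 hbt ha0 h.im h.cr
    have hth := h.th0.ne'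
    have eA : (b * lam / th - a) - π * lam / th = a' - c * lam / th := by
      rw [ha', hc]
      field_simp
      ring
    have eA2 : b * lam / th - a = ((lam - 2 * a) + (2 * b - th) * lam / th) / 2 := by
      field_simp
      ring
    obtain ⟨m, hm⟩ := hCOV lam th (lam - 2 * a) (2 * b - th) _ h.lam0 h.th0 h.th1 h5.le hlt h.rho
      p1 p2 h.cr eA2 (by rw [eA]; linarith)
    obtain ⟨j, j1, j2, j3, j4⟩ := hNEA lam th a b m h.lam0 h.th0 h.th1 h.b0 hbt p2
    have hrh : 0 ≤ 4 * rh lam th := by linarith [h.rho]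
    have hle : 4 * rh lam th * (sinh (a + j * lam) ^ 2 + sin (b + j * th) ^ 2) ≤
        4 * rh lam th * (sinh (|(b * lam / th - a) - (m + 1) * (π * lam / th)|
        + lam / 2) ^ 2 + sin (th / 2) ^ 2) := mul_le_mul_of_nonneg_left (by linarith) hrh
    split_ifs at hm with h7
    · have := h.big2 j (j2 h7)
      linarith
    · have := h.big j j1
      linarith

end Pool.Agent.M4F
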