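import Pool.Agent.helper49.M4F.FP
import Pool.Agent.helper49.M4F.ASR
import Pool.Agent.helper66.M4.VI
import Pool.Agent.helper8.M4.ADM

/-! # M4 block II: complex part and the assembly of the FAIL lemma -/

set_option autoImplicit false

namespace Pool.Agent.M4F

open Complex ComplexConjugate Pool.Agent.M4

theorem exp_per (u : ℂ) (m : ℤ) : Complex.exp (u + m * (2 * Real.pi * I)) = Complex.exp u := by
  rw [Complex.exp_add, Complex.exp_int_mul_two_pi_mul_I, mul_one]

theorem exp_per' (u : ℂ) (m : ℤ) : Complex.exp (-(u + m * (2 * Real.pi * I))) = Complex.exp (-u) := by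
  have h := exp_per (-u) (-m)
  rw [← h]
  congr 1
  push_cast
  ring

theorem cosh_per (u : ℂ) (m : ℤ) : Complex.cosh (u + m * (2 * Real.pi * I)) = Complex.cosh u := by
  rw [Complex.cosh, Complex.cosh, exp_per, exp_per']

theorem sinh_per (u : ℂ) (m : ℤ) : Complex.sinh (u + m * (2 * Real.pi * I)) = Complex.sinh u := by
  rw [Complex.sinh, Complex.sinh, exp_per, exp_per']

/-- the parameters of the pivot in the fourth quadrant -/
theorem piv {τ : ℂ} (hτ : 0 < τ.re) (h1 : 0 < (2 * Complex.cosh τ).re)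
    (h2 : (2 * Complex.cosh τ).im < 0) :
    ∃ (th : ℝ) (m : ℤ), 0 < th ∧ th < Real.pi / 2 ∧ τ = (⟨τ.re, -th⟩ : ℂ) + m * (2 * Real.pi * I) := by
  have e : Complex.cosh τ = ⟨Real.cosh τ.re * Real.cos τ.im, Real.sinh τ.re * Real.sin τ.im⟩ := by
    have := cosh_mk τ.re (-τ.im)
    rw [neg_neg, Real.cos_neg, Real.sin_neg] at this
    rw [show (⟨τ.re, τ.im⟩ : ℂ) = τ from rfl] at this
    rw [this]
    apply Complex.ext <;> simp
  rw [e] at h1 h2
  simp only [Complex.mul_re, Complex.mul_im, Complex.re_ofNat, Complex.im_ofNat, zero_mul,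
    sub_zero, add_zero] at h1 h2
  have hc := Real.cosh_pos τ.re
  have hs : 0 < Real.sinh τ.re := Real.sinh_pos_iff.2 hτ
  have hcos : 0 < Real.cos τ.im := by
    by_contra hcon
    rw [not_lt] at hcon
    have := mul_nonpos_of_nonneg_of_nonpos hc.le hcon
    linarith
  have hsin : Real.sin τ.im < 0 := by
    by_contra hcon
    rw [not_lt] at hcon
    have := mul_nonneg hs.le hcon
    linarith
  have c1 : Real.cos (Real.arccos (Real.cos τ.im)) = Real.cos τ.im :=
    Real.cos_arccos (Real.neg_one_le_cos _) (Real.cos_le_one _)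
  have s1 : Real.sin (Real.arccos (Real.cos τ.im)) = -Real.sin τ.im := by
    rw [Real.sin_arccos]
    have : 1 - Real.cos τ.im ^ 2 = (-Real.sin τ.im) ^ 2 := by
      have := Real.sin_sq_add_cos_sq τ.im
      linarith [neg_sq (Real.sin τ.im)]
    rw [this, Real.sqrt_sq (by linarith)]
  have hth0 : 0 < Real.arccos (Real.cos τ.im) := by
    rcases (Real.arccos_nonneg (Real.cos τ.im)).eq_or_lt with h | h
    · rw [← h, Real.sin_zero] at s1
      linarith
    · exact h
  have hth1 : Real.arccos (Real.cos τ.im) < Real.pi / 2 := Real.arccos_lt_pi_div_two.2 hcos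
  have hang : ((τ.im : ℝ) : Real.Angle) = ((-Real.arccos (Real.cos τ.im) : ℝ) : Real.Angle) := by
    apply Real.Angle.cos_sin_inj
    · rw [Real.cos_neg, c1]
    · rw [Real.sin_neg, s1, neg_neg]
  obtain ⟨m, hm⟩ := Real.Angle.angle_eq_iff_two_pi_dvd_sub.1 hang
  refine ⟨Real.arccos (Real.cos τ.im), m, hth0, hth1, ?_⟩
  apply Complex.ext
  · simp
  · simp only [Complex.add_im, Complex.mul_im, Complex.mul_re, Complex.intCast_re,
      Complex.intCast_im, Complex.re_ofNat, Complex.im_ofNat, Complex.ofReal_re,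
      Complex.ofReal_im, Complex.I_re, Complex.I_im]
    linarith

theorem cosh_eq_I_sinh (v : ℂ) : Complex.cosh v = I * Complex.sinh (v - (Real.pi / 2 : ℝ) * I) := by
  rw [Complex.sinh_sub, Complex.cosh_mul_I, Complex.sinh_mul_I, ← Complex.ofReal_cos,
    ← Complex.ofReal_sin, Real.cos_pi_div_two, Real.sin_pi_div_two]
  push_cast
  linear_combination (Complex.cosh v) * Complex.I_sq

/-- the fan in the form used -/
theorem fan_fx {R : ℂ} {x : ℤ → ℂ} (hx : Fan R x) (h1 : 0 < R.re) (h2 : R.im < 0) :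
    ∃ lam th a b : ℝ, 0 < lam ∧ 0 < th ∧ th < Real.pi / 2 ∧
      R = 2 * Complex.cosh (⟨lam, -th⟩ : ℂ) ∧
      ∀ k : ℤ, x k = fx ⟨lam, -th⟩ ⟨a + k * lam, -(b + k * th)⟩ := by
  obtain ⟨τ, w, hτ, hR, hxk⟩ := fan_param hx (fun h => by linarith [h.1])
  rw [hR] at h1 h2
  obtain ⟨th, m, ht0, ht1, hm⟩ := piv hτ h1 h2
  have hcτ : Complex.cosh τ = Complex.cosh (⟨τ.re, -th⟩ : ℂ) := by
    conv_lhs => rw [hm]
    exact cosh_per _ _
  have hsτ : Complex.sinh τ = Complex.sinh (⟨τ.re, -th⟩ : ℂ) := by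
    conv_lhs => rw [hm]
    exact sinh_per _ _
  refine ⟨τ.re, th, w.re, -w.im + Real.pi / 2, hτ, ht0, ht1, by rw [hR, hcτ], fun k => ?_⟩
  rw [hxk k, hR, hcτ, hsτ]
  unfold fx
  congr 1
  have e1 : w + k * τ = (w + k * (⟨τ.re, -th⟩ : ℂ)) + ((k * m : ℤ) : ℂ) * (2 * Real.pi * I) := by
    conv_lhs => rw [hm]
    push_cast
    ring
  rw [e1, cosh_per, cosh_eq_I_sinh]
  congr 2
  apply Complex.ext
  · simp
  · simp only [Complex.sub_im, Complex.add_im, Complex.mul_im, Complex.mul_re,
      Complex.intCast_re, Complex.intCast_im, Complex.ofReal_re,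
      Complex.ofReal_im, Complex.I_re, Complex.I_im]
    ring

theorem fx_norm_b {t : ℂ} {a b b' : ℝ} (h1 : Real.cos b' = Real.cos b) (h2 : Real.sin b' = Real.sin b)
    (u v : ℝ) : fx t ⟨a + u, -(b + v)⟩ = fx t ⟨a + u, -(b' + v)⟩ := by
  unfold fx
  rw [sinh_mk, sinh_mk, Real.cos_add, Real.sin_add, Real.cos_add, Real.sin_add, h1, h2]

/-- the base angle can be taken in `(0, pi)` -/
theorem base_angle {b : ℝ} (h : 0 < Real.sin b) : ∃ b' : ℝ, 0 < b' ∧ b' < Real.pi ∧
    Real.cos b' = Real.cos b ∧ Real.sin b' = Real.sin b := by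
  have c1 : Real.cos (Real.arccos (Real.cos b)) = Real.cos b :=
    Real.cos_arccos (Real.neg_one_le_cos _) (Real.cos_le_one _)
  have s1 : Real.sin (Real.arccos (Real.cos b)) = Real.sin b := by
    rw [Real.sin_arccos]
    have : 1 - Real.cos b ^ 2 = Real.sin b ^ 2 := by
      have := Real.sin_sq_add_cos_sq b
      linarith
    rw [this, Real.sqrt_sq h.le]
  refine ⟨Real.arccos (Real.cos b), ?_, ?_, c1, s1⟩
  · rcases (Real.arccos_nonneg (Real.cos b)).eq_or_lt with h' | h'
    · rw [← h', Real.sin_zero] at s1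
      linarith
    · exact h'
  · rcases (Real.arccos_le_pi (Real.cos b)).eq_or_lt with h' | h'
    · rw [h', Real.sin_pi] at s1
      linarith
    · exact h'

/-! ## The root pivot -/

theorem fx_rec (lam th a b : ℝ) :
    fx ⟨lam, -th⟩ ⟨a + lam, -(b + th)⟩ = 2 * Complex.cosh (⟨lam, -th⟩ : ℂ) * fx ⟨lam, -th⟩ ⟨a, -b⟩ -
      fx ⟨lam, -th⟩ ⟨a - lam, -(b - th)⟩ := by
  have e1 : (⟨a + lam, -(b + th)⟩ : ℂ) = ⟨a, -b⟩ + ⟨lam, -th⟩ := by
    apply Complex.ext
    · simp
    · simp; ring
  have e2 : (⟨a - lam, -(b - th)⟩ : ℂ) = ⟨a, -b⟩ - ⟨lam, -th⟩ := by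
    apply Complex.ext
    · simp
    · simp; ring
  unfold fx
  rw [e1, e2, Complex.sinh_add, Complex.sinh_sub]
  ring

theorem lens_bj {lam th a b : ℝ} {k : ℕ} (hl : 0 < lam) (h0 : 0 < th) (h1 : th < Real.pi / 2)
    (hb : b < Real.pi) (hlens : ∀ j : ℕ, j ≤ k → Lens lam th (a + j * lam) (b + j * th)) :
    ∀ j : ℕ, j ≤ k → b + j * th < Real.pi := by
  have hst : 0 < Real.sin th := Real.sin_pos_of_pos_of_lt_pi h0 (by linarith [Real.pi_pos])
  intro j
  induction j with
  | zero => intro _; simpa using hb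
  | succ j ih =>
    intro hj
    have h1 := ih (by omega)
    by_contra hcon
    rw [not_lt] at hcon
    have h2 := hlens (j + 1) hj
    have h3 : 0 < Real.sin (b + ((j + 1 : ℕ) : ℝ) * th) := by
      unfold Lens at h2
      have h4 : 0 ≤ Real.sinh lam * |Real.sinh (a + ((j + 1 : ℕ) : ℝ) * lam)| :=
        mul_nonneg (Real.sinh_nonneg_iff.2 hl.le) (abs_nonneg _)
      by_contra hc2
      rw [not_lt] at hc2
      have := mul_nonpos_of_nonneg_of_nonpos hst.le hc2
      linarith
    have h5 : b + ((j + 1 : ℕ) : ℝ) * th < 2 * Real.pi := by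
      push_cast
      linarith [Real.pi_pos]
    have h6 : Real.sin (b + ((j + 1 : ℕ) : ℝ) * th) =
        -Real.sin (b + ((j + 1 : ℕ) : ℝ) * th - Real.pi) := by
      rw [Real.sin_sub_pi]; ring
    have h7 : 0 ≤ Real.sin (b + ((j + 1 : ℕ) : ℝ) * th - Real.pi) :=
      Real.sin_nonneg_of_nonneg_of_le_pi (by linarith) (by linarith)
    linarith

theorem Ch_rep0 {z : ℂ} : ∀ n j : ℕ, j ≤ n → Ch (List.replicate n true) z →
    Ch (List.replicate j true) z := by
  intro n
  induction n with
  | zero =>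
    intro j hj h
    have : j = 0 := by omega
    rw [this]
    exact h
  | succ n ih =>
    intro j hj h
    rcases Nat.lt_or_ge n j with h1 | h1
    · have : j = n + 1 := by omega
      rw [this]
      exact h
    · rw [List.replicate_succ] at h
      exact ih j h1 h.1

theorem fail_root (hFRM : FRM_stmt) (z : ℂ) (n : ℕ) (hc : Ch (List.replicate n true) z) :
    ¬ FailL (Nf (List.replicate n true) z) (Rf (List.replicate n true) z) := by
  intro hf
  have hR : ∀ j : ℕ, Rf (List.replicate j true) z = -I * z := fun j =>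
    Rf_of_not (by simp) z
  have hz : z ∈ Qd := (Ch_rep0 n 0 (by omega) hc).1
  have r1 : 0 < (-I * z).re := by simpa using hz.2
  have r2 : (-I * z).im < 0 := by
    have := hz.1
    simp only [neg_mul, Complex.neg_im, Complex.mul_im, Complex.I_re, Complex.I_im]
    linarith
  obtain ⟨τ, hτ, hP⟩ := exists_tau (P := -I * z) (fun h => by linarith [h.1])
  have r1' := r1
  have r2' := r2
  rw [hP] at r1' r2'
  obtain ⟨th, m, hth0, hth1, hm⟩ := piv hτ r1' r2'
  have hcτ : Complex.cosh τ = Complex.cosh (⟨τ.re, -th⟩ : ℂ) := by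
    conv_lhs => rw [hm]
    exact cosh_per _ _
  obtain ⟨lam, hlam⟩ : ∃ lam, lam = τ.re := ⟨_, rfl⟩
  rw [← hlam] at hcτ hτ
  rw [hcτ] at hP
  have hcos : 0 < Real.cos th := Real.cos_pos_of_mem_Ioo ⟨by linarith, hth1⟩
  have hst : 0 < Real.sin th := Real.sin_pos_of_pos_of_lt_pi hth0 (by linarith [Real.pi_pos])
  have hsl : 0 < Real.sinh lam := Real.sinh_pos_iff.2 hτ
  have hs := st_pos (th := th) hτ
  have hs0 := sinh_ne th hτ
  have hLN : ∀ j : ℕ, Lf (List.replicate j true) z = fx ⟨lam, -th⟩ ⟨lam + j * lam, -(th + j * th)⟩ ∧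
      Nf (List.replicate j true) z =
        fx ⟨lam, -th⟩ ⟨lam + (j + 1) * lam, -(th + (j + 1) * th)⟩ := by
    intro j
    induction j with
    | zero =>
      constructor
      · show z = _
        simp only [Nat.cast_zero, zero_mul, add_zero]
        unfold fx
        have : 2 * Complex.cosh (⟨lam, -th⟩ : ℂ) / Complex.sinh (⟨lam, -th⟩ : ℂ) *
          (I * Complex.sinh (⟨lam, -th⟩ : ℂ)) = I * (2 * Complex.cosh (⟨lam, -th⟩ : ℂ)) := by
          field_simp
        rw [this, ← hP]
        linear_combination z * Complex.I_sq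
      · show -I * z ^ 2 = _
        simp only [Nat.cast_zero, zero_add, one_mul]
        have h1 : (⟨lam + lam, -(th + th)⟩ : ℂ) = 2 * ⟨lam, -th⟩ := by
          apply Complex.ext
          · simp; ring
          · simp; ring
        rw [h1]
        unfold fx
        rw [Complex.sinh_two_mul]
        have : 2 * Complex.cosh (⟨lam, -th⟩ : ℂ) / Complex.sinh (⟨lam, -th⟩ : ℂ) *
          (I * (2 * Complex.sinh (⟨lam, -th⟩ : ℂ) * Complex.cosh (⟨lam, -th⟩ : ℂ))) =
            I * (2 * Complex.cosh (⟨lam, -th⟩ : ℂ)) ^ 2 := by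
          field_simp
        rw [this, ← hP]
        linear_combination (-I * z ^ 2) * Complex.I_sq
    | succ j ih =>
      obtain ⟨i1, i2⟩ := ih
      constructor
      · show Nf (List.replicate j true) z = _
        rw [i2]
        push_cast
        rfl
      · show Nf (List.replicate j true) z * Rf (List.replicate j true) z -
          Lf (List.replicate j true) z = _
        rw [i1, i2, hR j, hP]
        have h1 := fx_rec lam th (lam + (j + 1) * lam) (th + (j + 1) * th)
        have h2 : (⟨lam + ((j : ℝ) + 1) * lam - lam, -(th + ((j : ℝ) + 1) * th - th)⟩ : ℂ) =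
            ⟨lam + j * lam, -(th + j * th)⟩ := by
          congr 1 <;> ring
        have h3 : (⟨lam + ((j : ℝ) + 1) * lam + lam, -(th + ((j : ℝ) + 1) * th + th)⟩ : ℂ) =
            ⟨lam + (((j + 1 : ℕ) : ℝ) + 1) * lam, -(th + (((j + 1 : ℕ) : ℝ) + 1) * th)⟩ := by
          push_cast
          congr 1 <;> ring
        rw [h2, h3] at h1
        rw [h1]
        ring
  have hA : ∀ j : ℕ, j ≤ n → Adm (Lf (List.replicate j true) z) (Nf (List.replicate j true) z)
      (-I * z) := by
    intro j hj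
    have := ADM _ z (Ch_rep0 n j hj hc)
    rwa [hR] at this
  have hlens : ∀ j : ℕ, j ≤ n → Lens lam th (lam + j * lam) (th + j * th) := by
    intro j hj
    have hAj := hA j hj
    have l1 := hAj.lo
    have l2 := hAj.hi
    rw [(hLN j).1, (hLN j).2, hP] at l1 l2
    rw [show lam + ((j : ℝ) + 1) * lam = lam + j * lam + lam by ring,
      show th + ((j : ℝ) + 1) * th = th + j * th + th by ring] at l1 l2
    exact fx_lens hτ hcos l1 l2
  have hb := lens_bj hτ hth0 hth1 (by linarith [Real.pi_pos]) hlens n le_rfl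
  have hr : 0 ≤ rh lam th := by unfold rh; positivity
  have hrh0 : 0 < 4 * rh lam th := by
    have : 0 < rh lam th := by unfold rh; positivity
    linarith
  have g1 : 0 ≤ reF lam th (lam + n * lam) (th + n * th) := by
    have hga := (hA n le_rfl).gam
    rw [(hLN n).1, hP] at hga
    have h3 := fx_re th (lam + n * lam) (th + n * th) hτ
    have h4 : 0 ≤ 4 * rh lam th * reF lam th (lam + n * lam) (th + n * th) := by
      rw [← h3]; exact mul_nonneg hga hs.le
    by_contra hcon
    rw [not_le] at hcon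
    have := mul_neg_of_pos_of_neg hrh0 hcon
    linarith
  have g2 : reF lam th (lam + n * lam + lam) (th + n * th + th) ≤ 0 := by
    have hfa := hf.2
    rw [(hLN n).2, hR n, hP] at hfa
    have h3 := fx_re th (lam + ((n : ℝ) + 1) * lam) (th + ((n : ℝ) + 1) * th) hτ
    have h4 : 4 * rh lam th * reF lam th (lam + ((n : ℝ) + 1) * lam) (th + ((n : ℝ) + 1) * th) ≤ 0 := by
      rw [← h3]; exact mul_nonpos_of_nonpos_of_nonneg hfa hs.le
    rw [show lam + n * lam + lam = lam + ((n : ℝ) + 1) * lam by ring,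
      show th + n * th + th = th + ((n : ℝ) + 1) * th by ring]
    by_contra hcon
    rw [not_le] at hcon
    have := mul_pos hrh0 hcon
    linarith
  have hnl : (0 : ℝ) ≤ n * lam := mul_nonneg (Nat.cast_nonneg n) hτ.le
  have hnt : (0 : ℝ) ≤ n * th := mul_nonneg (Nat.cast_nonneg n) hth0.le
  have := (hFRM lam th (lam + n * lam) (th + n * th) hτ hth0 hth1 (by linarith) hb g1 g2
    (Or.inl (by linarith))).1
  linarith

/-! ## The chain -/

theorem Ch_rep {v : List Bool} {z : ℂ} : ∀ n j : ℕ, j ≤ n → Ch (List.replicate n true ++ v) z →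
    Ch (List.replicate j true ++ v) z := by
  intro n
  induction n with
  | zero =>
    intro j hj h
    have : j = 0 := by omega
    rw [this]
    exact h
  | succ n ih =>
    intro j hj h
    rcases Nat.lt_or_ge n j with h1 | h1
    · have : j = n + 1 := by omega
      rw [this]
      exact h
    · rw [List.replicate_succ, List.cons_append] at h
      exact ih j h1 h.1

theorem fan_rev {R : ℂ} {x : ℤ → ℂ} (h : Fan R x) : Fan R (fun k => x (-k)) := by
  constructor
  · intro k
    have h1 := h.step (-k)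
    show x (-(k + 1)) = R * x (-k) - x (-(k - 1))
    rw [show -(k + 1) = -k - 1 by ring, show -(k - 1) = -k + 1 by ring, h1]
    ring
  · intro k
    have h1 := h.mar (-k - 1)
    show x (-k) ^ 2 + x (-(k + 1)) ^ 2 + R ^ 2 = R * x (-k) * x (-(k + 1))
    rw [show -(k + 1) = -k - 1 by ring]
    rw [show -k - 1 + 1 = -k by ring] at h1
    linear_combination h1

theorem fail_chn (w : List Bool) (z : ℂ) (n : ℕ) (hg : Good z)
    (hc : Ch (List.replicate n true ++ false :: w) z)
    (hf : FailL (Nf (List.replicate n true ++ false :: w) z)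
      (Rf (List.replicate n true ++ false :: w) z)) :
    ∃ lam th a b : ℝ, FD lam th a b n := by
  obtain ⟨x, hF, h0, h1, -, hm⟩ := exists_fan w z
  have hzb := hg.zb
  -- the entries of the triples
  have hN : ∀ j : ℕ, Nf (List.replicate j true ++ false :: w) z = x (-((j : ℤ) + 1)) := by
    intro j
    rw [← hm j]
    congr 1
    ring
  have hL : ∀ j : ℕ, Lf (List.replicate j true ++ false :: w) z = x (-(j : ℤ)) := by
    intro j
    cases j with
    | zero => rw [(Tr_left w z 0).2.1, ← h0]; rfl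
    | succ j =>
      rw [(Tr_left w z j).2.2.1, hN j]
      push_cast
      rfl
  have hR : ∀ j : ℕ, Rf (List.replicate j true ++ false :: w) z = Nf w z := fun j =>
    (Tr_left w z j).1
  have hA : ∀ j : ℕ, j ≤ n → Adm (x (-(j : ℤ))) (x (-((j : ℤ) + 1))) (Nf w z) := by
    intro j hj
    have := ADM _ z (Ch_rep n j hj hc)
    rwa [hL, hN, hR] at this
  have hc0 : Ch w z := (Ch_rep n 0 (by omega) hc).1
  have hA0 := ADM w z hc0
  rw [← h0, ← h1] at hA0
  have hAn := hA n le_rfl
  obtain ⟨lam, th, a, b0, hlam, hth0, hth1, hRR, hx⟩ := fan_fx (fan_rev hF) hAn.reR hAn.imR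
  have hcos : 0 < Real.cos th := Real.cos_pos_of_mem_Ioo ⟨by linarith, hth1⟩
  have hst : 0 < Real.sin th := Real.sin_pos_of_pos_of_lt_pi hth0 (by linarith [Real.pi_pos])
  have hsl : 0 < Real.sinh lam := Real.sinh_pos_iff.2 hlam
  have hs := st_pos (th := th) hlam
  have hx' : ∀ k : ℤ, x (-k) = fx ⟨lam, -th⟩ ⟨a + k * lam, -(b0 + k * th)⟩ := hx
  -- the lens at zero gives the base angle
  have hl0 : ∀ b : ℝ, (∀ k : ℤ, x (-k) = fx ⟨lam, -th⟩ ⟨a + k * lam, -(b + k * th)⟩) →
      ∀ j : ℕ, j ≤ n → Lens lam th (a + j * lam) (b + j * th) := by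
    intro b hb j hj
    have hAj := hA j hj
    have e1 := hb (j : ℤ)
    have e2 := hb ((j : ℤ) + 1)
    have l1 := hAj.lo
    have l2 := hAj.hi
    rw [e2, e1, hRR] at l1 l2
    push_cast at l1 l2
    rw [show a + ((j : ℝ) + 1) * lam = a + j * lam + lam by ring,
      show b + ((j : ℝ) + 1) * th = b + j * th + th by ring] at l1 l2
    exact fx_lens hlam hcos l1 l2
  have hsin : 0 < Real.sin b0 := by
    have h3 := hl0 b0 hx' 0 (by omega)
    unfold Lens at h3
    simp only [Nat.cast_zero, zero_mul, add_zero] at h3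
    have h4 : 0 ≤ Real.sinh lam * |Real.sinh a| := mul_nonneg hsl.le (abs_nonneg _)
    by_contra hcon
    rw [not_lt] at hcon
    have := mul_nonpos_of_nonneg_of_nonpos hst.le hcon
    linarith
  obtain ⟨b, hb0, hb1, hbc, hbs⟩ := base_angle hsin
  have hy : ∀ k : ℤ, x (-k) = fx ⟨lam, -th⟩ ⟨a + k * lam, -(b + k * th)⟩ := by
    intro k
    rw [hx' k]
    exact fx_norm_b hbc hbs _ _
  have hyn : ∀ j : ℕ, x (-(j : ℤ)) = fx ⟨lam, -th⟩ ⟨a + j * lam, -(b + j * th)⟩ := by
    intro j
    rw [hy (j : ℤ)]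
    push_cast
    rfl
  have hy1 : x 1 = fx ⟨lam, -th⟩ ⟨a - lam, -(b - th)⟩ := by
    have := hy (-1)
    rw [neg_neg] at this
    rw [this]
    congr 2
    · push_cast; ring
    · push_cast; ring
  have hy0 : x 0 = fx ⟨lam, -th⟩ ⟨a, -b⟩ := by
    have := hyn 0
    simpa using this
  have hnb : ∀ (j : ℕ) (M : ℝ), M ≤ ‖x (-(j : ℤ))‖ ^ 2 → M * st lam th ≤
      4 * rh lam th * (Real.sinh (a + j * lam) ^ 2 + Real.sin (b + j * th) ^ 2) := by
    intro j M hM
    rw [← fx_norm th (a + j * lam) (b + j * th) hlam, ← hyn j]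
    exact mul_le_mul_of_nonneg_right hM hs.le
  have hnorm : ‖Nf w z‖ ^ 2 = 4 * rh lam th := by rw [hRR]; exact R_norm lam th
  have hrho : 163 / 400 ≤ rh lam th := by
    have : (1.63 : ℝ) ≤ ‖Nf w z‖ ^ 2 := by
      by_cases hw : w = []
      · rw [hw, nsq_Nf_nil]
        have := hzb.bz
        nlinarith
      · have := hzb.ba w hw
        linarith
    rw [hnorm] at this
    linarith
  have hrh0 : 0 < 4 * rh lam th := by linarith
  refine ⟨lam, th, a, b, hlam, hth0, hth1, hb0, hb1, hrho, ?_, ?_, hl0 b hy, ?_, ?_, ?_, ?_⟩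
  · -- creation
    have hlo := hA0.lo
    rw [hy0, hy1, hRR] at hlo
    exact fx_cr hlam hcos hlo
  · -- im
    have him := hA0.imR
    rw [hy1] at him
    rw [← fx_im th (a - lam) (b - th) hlam]
    exact mul_neg_of_neg_of_pos him hs
  · -- re
    intro j hj
    have hga := (hA j hj).gam
    rw [hyn j, hRR] at hga
    have h3 := fx_re th (a + j * lam) (b + j * th) hlam
    have h4 : 0 ≤ 4 * rh lam th * reF lam th (a + j * lam) (b + j * th) := by
      rw [← h3]; exact mul_nonneg hga hs.le
    by_contra hcon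
    rw [not_le] at hcon
    have := mul_neg_of_pos_of_neg hrh0 hcon
    linarith
  · -- fail
    have hfa := hf.2
    rw [hN n, hR n, hRR] at hfa
    have e2 := hy ((n : ℤ) + 1)
    push_cast at e2
    rw [e2] at hfa
    have h3 := fx_re th (a + ((n : ℝ) + 1) * lam) (b + ((n : ℝ) + 1) * th) hlam
    have h4 : 4 * rh lam th * reF lam th (a + ((n : ℝ) + 1) * lam) (b + ((n : ℝ) + 1) * th) ≤ 0 := by
      rw [← h3]; exact mul_nonpos_of_nonpos_of_nonneg hfa hs.le
    by_contra hcon
    rw [not_le] at hcon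
    have := mul_pos hrh0 hcon
    linarith
  · intro j hj
    apply hnb
    obtain ⟨i, rfl⟩ : ∃ i, j = i + 1 := ⟨j - 1, by omega⟩
    have := hN i
    push_cast
    rw [← this]
    exact hzb.ba _ (by simp)
  · intro j hj
    apply hnb
    obtain ⟨i, rfl⟩ : ∃ i, j = i + 2 := ⟨j - 2, by omega⟩
    have := hN (i + 1)
    push_cast at this ⊢
    rw [show ((i : ℤ) + 2) = ((i : ℤ) + 1 + 1) by ring, ← this]
    exact hzb.bd _ (by simp) (by simp)

/-! ## The mirror -/

theorem Tr_mirror (w : List Bool) (z : ℂ) : Tr (w.map not) (I * conj z) =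
    ⟨conj (Rf w z), conj (Nf w z), conj (Lf w z)⟩ := by
  induction w with
  | nil =>
    show root (I * conj z) = ⟨conj (-I * z), conj (-I * z ^ 2), conj z⟩
    unfold root
    have e1 : -I * (I * conj z) ^ 2 = conj (-I * z ^ 2) := by
      simp only [map_mul, map_neg, Complex.conj_I, map_pow]
      linear_combination (-I * (conj z) ^ 2) * Complex.I_sq
    have e2 : -I * (I * conj z) = conj z := by
      linear_combination (-conj z) * Complex.I_sq
    have e3 : I * conj z = conj (-I * z) := by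
      simp only [map_mul, map_neg, Complex.conj_I]
      ring
    rw [e1, e2, ← e3]
  | cons b w ih =>
    cases b with
    | true =>
      show mv false (Tr (w.map not) (I * conj z)) = _
      rw [ih]
      show (⟨conj (Rf w z), conj (Rf w z) * conj (Nf w z) - conj (Lf w z), conj (Nf w z)⟩ : Tri) =
        ⟨conj (Rf w z), conj (Nf w z * Rf w z - Lf w z), conj (Nf w z)⟩
      rw [map_sub, map_mul, mul_comm]
    | false =>
      show mv true (Tr (w.map not) (I * conj z)) = _
      rw [ih]
      show (⟨conj (Nf w z), conj (Nf w z) * conj (Lf w z) - conj (Rf w z), conj (Lf w z)⟩ : Tri) =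
        ⟨conj (Nf w z), conj (Lf w z * Nf w z - Rf w z), conj (Lf w z)⟩
      rw [map_sub, map_mul, mul_comm]

theorem Lf_mirror (w : List Bool) (z : ℂ) : Lf (w.map not) (I * conj z) = conj (Rf w z) := by
  show (Tr (w.map not) (I * conj z)).L = _
  rw [Tr_mirror]

theorem Nf_mirror (w : List Bool) (z : ℂ) : Nf (w.map not) (I * conj z) = conj (Nf w z) := by
  show (Tr (w.map not) (I * conj z)).N = _
  rw [Tr_mirror]

theorem Rf_mirror (w : List Bool) (z : ℂ) : Rf (w.map not) (I * conj z) = conj (Lf w z) := by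
  show (Tr (w.map not) (I * conj z)).R = _
  rw [Tr_mirror]

theorem Qd_mirror {z : ℂ} (h : z ∈ Qd) : I * conj z ∈ Qd := by
  constructor
  · show 0 < (I * conj z).re
    simpa using h.2
  · show 0 < (I * conj z).im
    simpa using h.1

theorem norm_mirror (z : ℂ) : ‖I * conj z‖ = ‖z‖ := by
  rw [norm_mul, Complex.norm_I, one_mul, Complex.norm_conj]

theorem GoL_mirror {L N R : ℂ} (g : GoL L N R) : GoR (conj R) (conj N) (conj L) := by
  refine ⟨?_, ?_, ?_⟩
  · have := g.im
    simp only [Complex.conj_im]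
    linarith
  · have := g.re
    rw [Complex.conj_conj, mul_comm]
    exact this
  · have e : conj R - I * conj N = conj (I * (N - I * R)) := by
      simp only [map_mul, map_sub, Complex.conj_I]
      linear_combination (conj R) * Complex.I_sq
    rw [e, Complex.norm_conj, norm_mul, Complex.norm_I, one_mul, Complex.norm_conj]
    exact g.lt

theorem Ch_mirror {w : List Bool} {z : ℂ} (h : Ch w z) : Ch (w.map not) (I * conj z) := by
  induction w with
  | nil => exact ⟨Qd_mirror h.1, by rw [norm_mirror]; exact h.2⟩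
  | cons b w ih =>
    obtain ⟨h1, h2⟩ := h
    cases b with
    | true =>
      refine ⟨ih h1, ?_⟩
      show GoR (Lf (w.map not) (I * conj z)) (Nf (w.map not) (I * conj z))
        (Rf (w.map not) (I * conj z))
      rw [Lf_mirror, Nf_mirror, Rf_mirror]
      exact GoL_mirror h2
    | false =>
      refine ⟨ih h1, ?_⟩
      show GoL (Lf (w.map not) (I * conj z)) (Nf (w.map not) (I * conj z))
        (Rf (w.map not) (I * conj z))
      rw [Lf_mirror, Nf_mirror, Rf_mirror]
      exact GoR_conj h2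

theorem Good_mirror {z : ℂ} (h : Good z) : Good (I * conj z) := by
  have hw : ∀ w : List Bool, Nf w (I * conj z) = conj (Nf (w.map not) z) := by
    intro w
    rw [← Nf_mirror, List.map_map]
    have : (not ∘ not) = id := by
      funext b
      cases b <;> rfl
    rw [this, List.map_id]
  refine ⟨Qd_mirror h.q, by rw [norm_mirror]; exact h.lt, by rw [norm_mirror]; exact h.one, ?_, ?_⟩
  · intro w
    rw [hw, Complex.norm_conj]
    exact h.big _
  · intro w h1
    rw [hw] at h1 ⊢
    rw [Complex.conj_im, neg_eq_zero] at h1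
    rw [Complex.conj_re]
    exact h.nonreal _ h1

theorem words : ∀ w : List Bool, (∃ n, w = List.replicate n true) ∨
    ∃ (n : ℕ) (v : List Bool), w = List.replicate n true ++ false :: v := by
  intro w
  induction w with
  | nil => exact Or.inl ⟨0, rfl⟩
  | cons b w ih =>
    cases b with
    | false => exact Or.inr ⟨0, w, rfl⟩
    | true =>
      rcases ih with ⟨n, hn⟩ | ⟨n, v, hn⟩
      · exact Or.inl ⟨n + 1, by rw [hn]; rfl⟩
      · exact Or.inr ⟨n + 1, v, by rw [hn]; rfl⟩

/-- The FAIL lemma from the real statement. -/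
theorem fail_of (hFRM : FRM_stmt) (hFD : ∀ (lam th a b : ℝ) (k : ℕ), ¬ FD lam th a b k) :
    FAIL_stmt := by
  have hL : ∀ w z, Good z → Ch w z → ¬ FailL (Nf w z) (Rf w z) := by
    intro w z hg hc hf
    rcases words w with ⟨n, rfl⟩ | ⟨n, v, rfl⟩
    · exact fail_root hFRM z n hc hf
    · obtain ⟨lam, th, a, b, h⟩ := fail_chn v z n hg hc hf
      exact hFD lam th a b n h
  intro w z hg hc
  refine ⟨hL w z hg hc, fun hf => ?_⟩
  refine hL (w.map not) (I * conj z) (Good_mirror hg) (Ch_mirror hc) ?_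
  rw [Nf_mirror, Rf_mirror]
  refine ⟨?_, ?_⟩
  · have := hf.1
    rw [Complex.conj_im]
    linarith
  · have := hf.2
    rw [Complex.conj_conj, mul_comm]
    exact this

end Pool.Agent.M4F
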