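import Pool.Agent.helper49.M4F.ASR2
import Pool.Agent.helper49.M4F.CPX
import Pool.Agent.helper66.M4F.FRM
import Pool.Agent.helper66.M4F.BRA
import Pool.Agent.helper66.M4F.STR
import Pool.Agent.helper66.M4F.WST
import Pool.Agent.helper66.M4F.NEA
import Pool.Agent.helper66.M4F.LC3
import Pool.Agent.helper47.M4F.LC

/-! # M4 block II: FAIL from the two last rows (helper26: LC1b, COVA) -/

set_option autoImplicit false

namespace Pool.Agent.M4F

open Pool.Agent.M4

theorem FAIL_of (h1 : LC1b_stmt) (h2 : COVA_stmt) : FAIL_stmt :=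
  fail_of FRM (ASR2 FRM STR BRA WST LC1 h1 LC2 LC3 h2 NEA)

end Pool.Agent.M4F
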