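import Pool.Agent.helper49.M4F.FAIL2
import Pool.Agent.helper47.M4F.LC1b
import Pool.Agent.helper30.M4F.R1
import Pool.Agent.helper26.M4.R2

/-! # M4 block II: the FAIL lemma -/

set_option autoImplicit false

namespace Pool.Agent.M4F

open Pool.Agent.M4

/-- **FAIL lemma** (block II of project M4). -/
theorem FAIL : FAIL_stmt := FAIL_of2 LC1b R1 Cov.R2

end Pool.Agent.M4F
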