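import Pool.Agent.helper49.M4.Spec

/-! # M4 block II: the parametrisation of the fan -/

set_option autoImplicit false

namespace Pool.Agent.M4F

open Complex ComplexConjugate Pool.Agent.M4

theorem sinh_mk (a b : ℝ) : Complex.sinh (⟨a, -b⟩ : ℂ) =
    ⟨Real.sinh a * Real.cos b, -(Real.cosh a * Real.sin b)⟩ := by
  have h : (⟨a, -b⟩ : ℂ) = (a : ℂ) - (b : ℂ) * I := by
    apply Complex.ext <;> simp
  rw [h, Complex.sinh_sub, Complex.cosh_mul_I, Complex.sinh_mul_I]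
  have e : Complex.sinh (a : ℂ) * Complex.cos (b : ℂ) - Complex.cosh (a : ℂ) * (Complex.sin (b : ℂ) * I)
      = ((Real.sinh a * Real.cos b : ℝ) : ℂ) + ((-(Real.cosh a * Real.sin b) : ℝ) : ℂ) * I := by
    push_cast
    ring
  rw [e]
  exact (Complex.mk_eq_add_mul_I _ _).symm

theorem cosh_mk (a b : ℝ) : Complex.cosh (⟨a, -b⟩ : ℂ) =
    ⟨Real.cosh a * Real.cos b, -(Real.sinh a * Real.sin b)⟩ := by
  have h : (⟨a, -b⟩ : ℂ) = (a : ℂ) - (b : ℂ) * I := by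
    apply Complex.ext <;> simp
  rw [h, Complex.cosh_sub, Complex.cosh_mul_I, Complex.sinh_mul_I]
  have e : Complex.cosh (a : ℂ) * Complex.cos (b : ℂ) - Complex.sinh (a : ℂ) * (Complex.sin (b : ℂ) * I)
      = ((Real.cosh a * Real.cos b : ℝ) : ℂ) + ((-(Real.sinh a * Real.sin b) : ℝ) : ℂ) * I := by
    push_cast
    ring
  rw [e]
  exact (Complex.mk_eq_add_mul_I _ _).symm

/-- the point of the fan -/
noncomputable def fx (t u : ℂ) : ℂ := 2 * Complex.cosh t / Complex.sinh t * (I * Complex.sinh u)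

theorem nsq_mk (x y : ℝ) : ‖(⟨x, y⟩ : ℂ)‖ ^ 2 = x ^ 2 + y ^ 2 := by
  rw [norm_sq_eq]

theorem st_pos {lam th : ℝ} (h : 0 < lam) : 0 < st lam th := by
  have : 0 < Real.sinh lam := Real.sinh_pos_iff.2 h
  unfold st
  positivity

theorem nsinh (a b : ℝ) : ‖Complex.sinh (⟨a, -b⟩ : ℂ)‖ ^ 2 = Real.sinh a ^ 2 + Real.sin b ^ 2 := by
  rw [nsq_sinh]
  simp

theorem ncosh (a b : ℝ) : ‖Complex.cosh (⟨a, -b⟩ : ℂ)‖ ^ 2 = Real.sinh a ^ 2 + Real.cos b ^ 2 := by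
  rw [nsq_cosh]
  simp

theorem sinh_ne {lam : ℝ} (th : ℝ) (h : 0 < lam) : Complex.sinh (⟨lam, -th⟩ : ℂ) ≠ 0 :=
  sinh_ne_zero_of_re (τ := (⟨lam, -th⟩ : ℂ)) h

/-- (n) the norm -/
theorem fx_norm {lam : ℝ} (th a b : ℝ) (h : 0 < lam) :
    ‖fx ⟨lam, -th⟩ ⟨a, -b⟩‖ ^ 2 * st lam th =
      4 * rh lam th * (Real.sinh a ^ 2 + Real.sin b ^ 2) := by
  have hs := st_pos (th := th) h
  have h1 := nsinh lam th
  unfold fx
  rw [norm_mul, norm_div, norm_mul, norm_mul, Complex.norm_I, one_mul, mul_pow, div_pow, mul_pow,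
    nsinh, nsinh, ncosh]
  unfold rh st at *
  simp only [Complex.norm_ofNat]
  field_simp
  ring

theorem R_norm (lam th : ℝ) : ‖2 * Complex.cosh (⟨lam, -th⟩ : ℂ)‖ ^ 2 = 4 * rh lam th := by
  rw [norm_mul, mul_pow, ncosh]
  unfold rh
  simp only [Complex.norm_ofNat]
  ring

/-- the point times `st` -/
theorem fx_mul {lam : ℝ} (th a b : ℝ) (h : 0 < lam) :
    fx ⟨lam, -th⟩ ⟨a, -b⟩ * (st lam th : ℂ) =
      (⟨Real.sinh (2 * lam), Real.sin (2 * th)⟩ : ℂ) *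
        ⟨Real.cosh a * Real.sin b, Real.sinh a * Real.cos b⟩ := by
  have hs := sinh_ne th h
  have e1 : (st lam th : ℂ) = Complex.sinh (⟨lam, -th⟩ : ℂ) *
      (⟨Real.sinh lam * Real.cos th, Real.cosh lam * Real.sin th⟩ : ℂ) := by
    rw [sinh_mk]
    apply Complex.ext
    · simp only [Complex.mul_re, Complex.ofReal_re]
      unfold st
      have h1 := Real.cosh_sq lam
      have h2 := Real.sin_sq_add_cos_sq th
      linear_combination (-(Real.sin th ^ 2)) * h1 + (-(Real.sinh lam ^ 2)) * h2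
    · simp only [Complex.mul_im, Complex.ofReal_im]
      ring
  have e2 : (⟨Real.cosh a * Real.sin b, Real.sinh a * Real.cos b⟩ : ℂ) =
      I * Complex.sinh (⟨a, -b⟩ : ℂ) := by
    rw [sinh_mk]
    apply Complex.ext
    · simp
    · simp
  have e3 : (⟨Real.sinh (2 * lam), Real.sin (2 * th)⟩ : ℂ) =
      2 * Complex.cosh (⟨lam, -th⟩ : ℂ) *
        (⟨Real.sinh lam * Real.cos th, Real.cosh lam * Real.sin th⟩ : ℂ) := by
    rw [cosh_mk, Real.sinh_two_mul, Real.sin_two_mul]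
    have h1 := Real.cosh_sq lam
    have h2 := Real.sin_sq_add_cos_sq th
    apply Complex.ext
    · simp only [Complex.mul_re, Complex.mul_im, Complex.re_ofNat, Complex.im_ofNat]
      linear_combination (-(2 * Real.sinh lam * Real.cosh lam)) * h2
    · simp only [Complex.mul_re, Complex.mul_im, Complex.re_ofNat, Complex.im_ofNat]
      linear_combination (-(2 * Real.sin th * Real.cos th)) * h1
  unfold fx
  rw [e1, e2, e3]
  field_simp

/-- (i) the imaginary part -/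
theorem fx_im {lam : ℝ} (th a b : ℝ) (h : 0 < lam) :
    (fx ⟨lam, -th⟩ ⟨a, -b⟩).im * st lam th = imF lam th a b := by
  have h1 := congrArg Complex.im (fx_mul th a b h)
  rw [Complex.mul_im, Complex.mul_im, Complex.ofReal_re, Complex.ofReal_im] at h1
  unfold imF
  simp only at h1
  linarith

/-- (r) the angle -/
theorem fx_re {lam : ℝ} (th a b : ℝ) (h : 0 < lam) :
    (fx ⟨lam, -th⟩ ⟨a, -b⟩ * conj (2 * Complex.cosh (⟨lam, -th⟩ : ℂ))).re * st lam th =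
      4 * rh lam th * reF lam th a b := by
  have h1 := fx_mul th a b h
  have e : (fx ⟨lam, -th⟩ ⟨a, -b⟩ * conj (2 * Complex.cosh (⟨lam, -th⟩ : ℂ))).re * st lam th =
      (fx ⟨lam, -th⟩ ⟨a, -b⟩ * (st lam th : ℂ) * conj (2 * Complex.cosh (⟨lam, -th⟩ : ℂ))).re := by
    rw [mul_right_comm, Complex.re_mul_ofReal]
  rw [e, h1, cosh_mk]
  simp only [Complex.mul_re, Complex.mul_im, map_mul, Complex.conj_re, Complex.conj_im,
    Complex.re_ofNat, Complex.im_ofNat]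
  rw [Real.sinh_two_mul, Real.sin_two_mul]
  unfold rh reF
  have h1 := Real.cosh_sq lam
  have h2 := Real.sin_sq_add_cos_sq th
  have h3 : Real.cosh lam ^ 2 = Real.sinh lam ^ 2 + 1 := h1
  have h4 : Real.sin th ^ 2 = 1 - Real.cos th ^ 2 := by linarith
  have hc : Real.cosh lam ^ 3 = Real.cosh lam * (Real.sinh lam ^ 2 + 1) := by
    rw [← h3]; ring
  have hn : Real.sin th ^ 3 = Real.sin th * (1 - Real.cos th ^ 2) := by
    rw [← h4]; ring
  ring_nf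
  simp only [h3, h4]
  ring

theorem F_pos {lam : ℝ} (th : ℝ) (h : 0 < lam) :
    0 < ‖2 * Complex.cosh (⟨lam, -th⟩ : ℂ) / Complex.sinh (⟨lam, -th⟩ : ℂ)‖ := by
  rw [norm_pos_iff]
  refine div_ne_zero ?_ (sinh_ne th h)
  intro h0
  have h1 := R_norm lam th
  rw [h0] at h1
  unfold rh at h1
  have h2 : 0 < Real.sinh lam := Real.sinh_pos_iff.2 h
  simp at h1
  nlinarith [sq_nonneg (Real.cos th), mul_pos h2 h2]

theorem fx_sub {lam : ℝ} (th a b : ℝ) (h : 0 < lam) :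
    ‖fx ⟨lam, -th⟩ ⟨a, -b⟩ - I * (2 * Complex.cosh (⟨lam, -th⟩ : ℂ))‖ =
      ‖2 * Complex.cosh (⟨lam, -th⟩ : ℂ) / Complex.sinh (⟨lam, -th⟩ : ℂ)‖ *
        ‖Complex.sinh (⟨a, -b⟩ : ℂ) - Complex.sinh (⟨lam, -th⟩ : ℂ)‖ := by
  have hs := sinh_ne th h
  have e : fx ⟨lam, -th⟩ ⟨a, -b⟩ - I * (2 * Complex.cosh (⟨lam, -th⟩ : ℂ)) =
      2 * Complex.cosh (⟨lam, -th⟩ : ℂ) / Complex.sinh (⟨lam, -th⟩ : ℂ) *
        (I * (Complex.sinh (⟨a, -b⟩ : ℂ) - Complex.sinh (⟨lam, -th⟩ : ℂ))) := by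
    unfold fx
    field_simp
  rw [e, norm_mul, norm_mul, Complex.norm_I, one_mul]

theorem fx_add {lam : ℝ} (th a b : ℝ) (h : 0 < lam) :
    ‖fx ⟨lam, -th⟩ ⟨a, -b⟩ + I * (2 * Complex.cosh (⟨lam, -th⟩ : ℂ))‖ =
      ‖2 * Complex.cosh (⟨lam, -th⟩ : ℂ) / Complex.sinh (⟨lam, -th⟩ : ℂ)‖ *
        ‖Complex.sinh (⟨a, -b⟩ : ℂ) + Complex.sinh (⟨lam, -th⟩ : ℂ)‖ := by
  have hs := sinh_ne th h
  have e : fx ⟨lam, -th⟩ ⟨a, -b⟩ + I * (2 * Complex.cosh (⟨lam, -th⟩ : ℂ)) =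
      2 * Complex.cosh (⟨lam, -th⟩ : ℂ) / Complex.sinh (⟨lam, -th⟩ : ℂ) *
        (I * (Complex.sinh (⟨a, -b⟩ : ℂ) + Complex.sinh (⟨lam, -th⟩ : ℂ))) := by
    unfold fx
    field_simp
  rw [e, norm_mul, norm_mul, Complex.norm_I, one_mul]

theorem fx_one (t u : ℂ) :
    ‖fx t u‖ = ‖2 * Complex.cosh t / Complex.sinh t‖ * ‖Complex.sinh u‖ := by
  unfold fx
  rw [norm_mul, norm_mul I, Complex.norm_I, one_mul]

/-- (l) the lens -/
theorem fx_lens {lam th a b : ℝ} (h : 0 < lam) (hc : 0 < Real.cos th)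
    (h1 : ‖fx ⟨lam, -th⟩ ⟨a, -b⟩ - I * (2 * Complex.cosh (⟨lam, -th⟩ : ℂ))‖ <
      ‖fx ⟨lam, -th⟩ ⟨a + lam, -(b + th)⟩‖)
    (h2 : ‖fx ⟨lam, -th⟩ ⟨a + lam, -(b + th)⟩‖ <
      ‖fx ⟨lam, -th⟩ ⟨a, -b⟩ + I * (2 * Complex.cosh (⟨lam, -th⟩ : ℂ))‖) :
    Lens lam th a b := by
  have hF := F_pos th h
  rw [fx_sub th a b h, fx_one] at h1
  rw [fx_add th a b h, fx_one] at h2
  have g1 := lt_of_mul_lt_mul_left h1 hF.le
  have g2 := lt_of_mul_lt_mul_left h2 hF.le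
  have k1 := pow_lt_pow_left₀ g1 (norm_nonneg _) (two_ne_zero)
  have k2 := pow_lt_pow_left₀ g2 (norm_nonneg _) (two_ne_zero)
  rw [nsinh, sinh_mk, sinh_mk, norm_sq_eq, Real.sinh_add, Real.sin_add] at k1
  rw [nsinh, sinh_mk, sinh_mk, norm_sq_eq, Real.sinh_add, Real.sin_add] at k2
  simp only [Complex.sub_re, Complex.sub_im, Complex.add_re, Complex.add_im] at k1 k2
  have a1 := Real.cosh_sq a
  have a2 := Real.cosh_sq lam
  have a3 := Real.sin_sq_add_cos_sq b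
  have a4 := Real.sin_sq_add_cos_sq th
  set sa := Real.sinh a
  set ca := Real.cosh a
  set sl := Real.sinh lam
  set cl := Real.cosh lam
  set sb := Real.sin b
  set cb := Real.cos b
  set sq := Real.sin th
  set cq := Real.cos th
  have b1 : (sa * cl + ca * sl) ^ 2 + (sb * cq + cb * sq) ^ 2 -
      ((sa * cb - sl * cq) ^ 2 + (-(ca * sb) - -(cl * sq)) ^ 2) =
      2 * (sa * sl + sb * sq) * ((ca * cl + sa * sl) + (cb * cq - sb * sq)) := by
    have c1 : ca ^ 2 = sa ^ 2 + 1 := a1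
    have c2 : cl ^ 2 = sl ^ 2 + 1 := a2
    have c3 : cb ^ 2 = 1 - sb ^ 2 := by linarith
    have c4 : cq ^ 2 = 1 - sq ^ 2 := by linarith
    ring_nf
    simp only [c1, c2, c3, c4]
    ring
  have b2 : ((sa * cb + sl * cq) ^ 2 + (-(ca * sb) + -(cl * sq)) ^ 2) -
      ((sa * cl + ca * sl) ^ 2 + (sb * cq + cb * sq) ^ 2) =
      2 * (sb * sq - sa * sl) * ((ca * cl + sa * sl) - (cb * cq - sb * sq)) := by
    have c1 : ca ^ 2 = sa ^ 2 + 1 := a1
    have c2 : cl ^ 2 = sl ^ 2 + 1 := a2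
    have c3 : cb ^ 2 = 1 - sb ^ 2 := by linarith
    have c4 : cq ^ 2 = 1 - sq ^ 2 := by linarith
    ring_nf
    simp only [c1, c2, c3, c4]
    ring
  have e1 : Real.cosh (a + lam) = ca * cl + sa * sl := Real.cosh_add a lam
  have e2 : Real.cos (b + th) = cb * cq - sb * sq := Real.cos_add b th
  have f1 := Real.one_le_cosh (a + lam)
  have f2 := Real.cos_le_one (b + th)
  have f3 := Real.neg_one_le_cos (b + th)
  have d1 : 0 < sa * sl + sb * sq := by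
    by_contra hcon
    rw [not_lt] at hcon
    have : (sa * sl + sb * sq) * ((ca * cl + sa * sl) + (cb * cq - sb * sq)) ≤ 0 :=
      mul_nonpos_of_nonpos_of_nonneg hcon (by rw [← e1, ← e2]; linarith)
    nlinarith
  have d2 : 0 < sb * sq - sa * sl := by
    by_contra hcon
    rw [not_lt] at hcon
    have : (sb * sq - sa * sl) * ((ca * cl + sa * sl) - (cb * cq - sb * sq)) ≤ 0 :=
      mul_nonpos_of_nonpos_of_nonneg hcon (by rw [← e1, ← e2]; linarith)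
    nlinarith
  have hsl : 0 < sl := Real.sinh_pos_iff.2 h
  show sl * |sa| < sq * sb
  rw [show sl * |sa| = |sa * sl| by rw [abs_mul, abs_of_pos hsl]; ring, abs_lt]
  constructor <;> nlinarith

/-- (c) the creation inequality -/
theorem fx_cr {lam th a b : ℝ} (h : 0 < lam) (hc : 0 < Real.cos th)
    (h1 : ‖fx ⟨lam, -th⟩ ⟨a, -b⟩ - I * fx ⟨lam, -th⟩ ⟨a - lam, -(b - th)⟩‖ <
      ‖2 * Complex.cosh (⟨lam, -th⟩ : ℂ)‖) :
    CrI lam th (lam - 2 * a) (2 * b - th) := by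
  have hF := F_pos th h
  have hs := sinh_ne th h
  have e : fx ⟨lam, -th⟩ ⟨a, -b⟩ - I * fx ⟨lam, -th⟩ ⟨a - lam, -(b - th)⟩ =
      2 * Complex.cosh (⟨lam, -th⟩ : ℂ) / Complex.sinh (⟨lam, -th⟩ : ℂ) *
        (I * (Complex.sinh (⟨a, -b⟩ : ℂ) - I * Complex.sinh (⟨a - lam, -(b - th)⟩ : ℂ))) := by
    unfold fx
    ring
  have e2 : 2 * Complex.cosh (⟨lam, -th⟩ : ℂ) =
      2 * Complex.cosh (⟨lam, -th⟩ : ℂ) / Complex.sinh (⟨lam, -th⟩ : ℂ) *
        Complex.sinh (⟨lam, -th⟩ : ℂ) := by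
    field_simp
  rw [e, norm_mul, norm_mul I, Complex.norm_I, one_mul] at h1
  rw [show ‖2 * Complex.cosh (⟨lam, -th⟩ : ℂ)‖ =
      ‖2 * Complex.cosh (⟨lam, -th⟩ : ℂ) / Complex.sinh (⟨lam, -th⟩ : ℂ)‖ *
        ‖Complex.sinh (⟨lam, -th⟩ : ℂ)‖ by rw [← norm_mul, ← e2]] at h1
  have g1 := lt_of_mul_lt_mul_left h1 hF.le
  have k1 := pow_lt_pow_left₀ g1 (norm_nonneg _) (two_ne_zero)
  rw [nsinh, sinh_mk, sinh_mk, norm_sq_eq] at k1
  simp only [Complex.sub_re, Complex.sub_im, Complex.mul_re, Complex.mul_im, Complex.I_re,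
    Complex.I_im] at k1
  rw [Real.sinh_sub, Real.cosh_sub, Real.sin_sub, Real.cos_sub] at k1
  unfold CrI st
  rw [Real.cosh_sub, Real.sinh_sub, Real.cosh_two_mul, Real.sinh_two_mul, Real.sin_sub,
    Real.cos_sub, Real.cos_two_mul, Real.sin_two_mul]
  have a1 := Real.cosh_sq a
  have a2 := Real.cosh_sq lam
  have a3 := Real.sin_sq_add_cos_sq b
  have a4 := Real.sin_sq_add_cos_sq th
  set sa := Real.sinh a
  set ca := Real.cosh a
  set sl := Real.sinh lam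
  set cl := Real.cosh lam
  set sb := Real.sin b
  set cb := Real.cos b
  set sq := Real.sin th
  set cq := Real.cos th
  refine lt_of_eq_of_lt ?_ k1
  have c1 : ca ^ 2 = sa ^ 2 + 1 := a1
  have c2 : cl ^ 2 = sl ^ 2 + 1 := a2
  have c3 : cb ^ 2 = 1 - sb ^ 2 := by linarith
  have c4 : cq ^ 2 = 1 - sq ^ 2 := by linarith
  ring_nf
  simp only [c1, c2, c3, c4]
  ring

end Pool.Agent.M4F
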